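import Pool.Agent.Helper97.Nag.Goals

/-!
Project NAG (MP_d3128a_ag), packet NAG-EXH: the extreme monomial of the theta function of degree one.
-/

set_option autoImplicit false

namespace Pool.Agent.Helper60.Nag.EXH

open Pool.Agent.Helper97.Nag Pool.Agent.Helper97.Tate

noncomputable section

variable {r p : ℕ}

theorem coeff_thG (i : Fin r × Fin p) (N : ℕ) (h : HH r p) :
    (PowerSeries.coeff N (thG i)).coeff h = ∑ a ∈ Finset.Icc (-(N : ℤ)) (N + 1),
      if qe 1 0 a = N ∧ ((a, -(Pi.single i a)) : HH r p) = h then (-1 : ℚ) ^ a else 0 := by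
  classical
  rw [thG, PowerSeries.coeff_mk, AddMonoidAlgebra.coeff_sum, Finsupp.finsetSum_apply]
  apply Finset.sum_congr rfl
  intro a _
  by_cases h1 : qe 1 0 a = N
  · rw [if_pos h1, AddMonoidAlgebra.coeff_single, Finsupp.single_apply]
    by_cases h2 : ((a, -(Pi.single i a)) : HH r p) = h
    · rw [if_pos h2, if_pos ⟨h1, h2⟩]
    · rw [if_neg h2, if_neg (fun h3 => h2 h3.2)]
  · rw [if_neg h1, if_neg (fun h3 => h1 h3.1)]
    rfl

theorem exists_a (i : Fin r × Fin p) (N : ℕ) (h : HH r p)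
    (hh : (PowerSeries.coeff N (thG i)).coeff h ≠ 0) :
    ∃ a : ℤ, qe 1 0 a = N ∧ h = (a, -(Pi.single i a)) := by
  rw [coeff_thG] at hh
  obtain ⟨a, _, ha⟩ := Finset.exists_ne_zero_of_sum_ne_zero hh
  by_cases h1 : qe 1 0 a = N ∧ ((a, -(Pi.single i a)) : HH r p) = h
  · exact ⟨a, h1.1, h1.2.symm⟩
  · rw [if_neg h1] at ha
    exact absurd rfl ha

theorem coeff_b (i : Fin r × Fin p) (b : ℤ) (h0 : 0 ≤ b) (h1 : b ≤ 1) (hb : qe 1 0 b = 0) :
    (PowerSeries.coeff 0 (thG i)).coeff ((b, -(Pi.single i b)) : HH r p) ≠ 0 := by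
  rw [coeff_thG, Finset.sum_eq_single b]
  · rw [if_pos ⟨by simpa using hb, rfl⟩]
    exact zpow_ne_zero _ (by norm_num)
  · intro a _ hab
    rw [if_neg]
    rintro ⟨_, h2⟩
    exact hab (congrArg Prod.fst h2)
  · intro h2
    exfalso
    apply h2
    rw [Finset.mem_Icc]
    constructor
    · simpa using h0
    · simpa using h1

theorem qe_real (a : ℤ) (N : ℕ) (h : qe 1 0 a = N) : (N : ℝ) = a * (a - 1) / 2 := by
  have h1 : (2 : ℤ) ∣ a * (a - 1) := by
    have h2 := Int.even_mul_succ_self (a - 1)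
    have h3 : (a - 1) * (a - 1 + 1) = a * (a - 1) := by ring
    rw [h3] at h2
    exact h2.two_dvd
  obtain ⟨c, hc⟩ := h1
  have h2 : qe 1 0 a = c := by
    rw [qe, hc]
    simp
  have h3 : (c : ℤ) = (N : ℤ) := by rw [← h2, h]
  have h4 : ((a * (a - 1) : ℤ) : ℝ) = ((2 * c : ℤ) : ℝ) := by rw [hc]
  have h5 : ((c : ℤ) : ℝ) = (N : ℝ) := by
    rw [h3]
    simp
  push_cast at h4
  rw [h4, ← h5]
  ring

theorem bH_apply (k r p : ℕ) (Om eta : ℝ) (l : ℕ) (i : Fin r × Fin p) (a : ℤ) :
    bH k r p Om eta l (a, -(Pi.single i a)) =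
      a * ((((i.1 : ℕ) : ℝ) - l) / r + eta / k ^ 2) := by
  classical
  have h1 : bH k r p Om eta l (a, -(Pi.single i a)) = (a : ℝ) * wx k r p Om eta l +
      ∑ j : Fin r × Fin p, (((-(Pi.single i a) : Fin r × Fin p → ℤ) j : ℤ) : ℝ) *
        ww k r p Om eta (j.1 : ℕ) := rfl
  rw [h1, Finset.sum_eq_single i]
  · rw [Pi.neg_apply, Pi.single_eq_same, ww, wx, wx]
    push_cast
    ring
  · intro j _ hj
    rw [Pi.neg_apply, Pi.single_eq_of_ne hj]
    simp
  · intro h2
    exact absurd (Finset.mem_univ _) h2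

theorem t : S_EXH := by
  intro k r p Om eta hr hp hk he hep l i hl
  have hr0 : (0 : ℝ) < r := by exact_mod_cast hr
  have hp0 : (0 : ℝ) < p := by exact_mod_cast hp
  have hk2 : (k : ℝ) ^ 2 = r * p := by exact_mod_cast hk.symm
  have he0 : 0 < eta / (k : ℝ) ^ 2 := by
    rw [hk2]
    positivity
  have he1 : eta / (k : ℝ) ^ 2 < 1 / r := by
    rw [hk2, div_lt_div_iff₀ (by positivity) hr0]
    nlinarith
  have hi : (i.1 : ℕ) < r := i.1.2
  have hir : (((i.1 : ℕ) : ℝ)) + 1 ≤ r := by exact_mod_cast hi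
  have hlr : (l : ℝ) + 1 ≤ r := by exact_mod_cast hl
  obtain ⟨u, hu⟩ : ∃ u : ℝ, u = (((i.1 : ℕ) : ℝ) - l) / r + eta / k ^ 2 := ⟨_, rfl⟩
  have hb : ∀ a : ℤ, bH k r p Om eta l (a, -(Pi.single i a)) = a * u := by
    intro a
    rw [bH_apply, hu]
  rw [← hu]
  have h00 : ((0 : HH r p)) = ((0 : ℤ), -(Pi.single i (0 : ℤ))) := by
    rw [Pi.single_zero, neg_zero]
    rfl
  by_cases hli : l ≤ (i.1 : ℕ)
  · have hli' : (l : ℝ) ≤ ((i.1 : ℕ) : ℝ) := by exact_mod_cast hli
    have hu0 : 0 < u := by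
      rw [hu]
      have : 0 ≤ (((i.1 : ℕ) : ℝ) - l) / r := div_nonneg (by linarith) hr0.le
      linarith
    have hu1 : u < 1 := by
      have h2 : (((i.1 : ℕ) : ℝ) - l) / r + 1 / r ≤ 1 := by
        rw [← add_div, div_le_one hr0]
        have : (0 : ℝ) ≤ l := Nat.cast_nonneg l
        linarith
      rw [hu]
      linarith
    simp only [if_pos hli]
    refine ⟨?_, ?_, ?_⟩
    · intro N h hh
      obtain ⟨a, ha, rfl⟩ := exists_a i N h hh
      rw [hb, qe_real a N ha]
      have hkey : (a : ℝ) * (a - 1) / 2 + a * u = a * ((a - 1) / 2 + u) := by ring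
      rcases lt_trichotomy a 0 with h1 | h1 | h1
      · have h2 : (a : ℝ) ≤ -1 := by exact_mod_cast (show a ≤ -1 by omega)
        have h3 : 0 < (a : ℝ) * (a - 1) / 2 + a * u := by
          rw [hkey]
          apply mul_pos_of_neg_of_neg
          · linarith
          · linarith
        exact ⟨h3.le, fun h4 => absurd h4 h3.ne⟩
      · subst h1
        refine ⟨by simp, fun _ => ⟨?_, ?_⟩⟩
        · have h2 : ((N : ℕ) : ℤ) = 0 := by rw [← ha]; simp [qe]
          exact_mod_cast h2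
        · rw [h00]
      · have h2 : (1 : ℝ) ≤ a := by exact_mod_cast (show 1 ≤ a by omega)
        have h3 : 0 < (a : ℝ) * (a - 1) / 2 + a * u := by
          rw [hkey]
          apply mul_pos
          · linarith
          · linarith
        exact ⟨h3.le, fun h4 => absurd h4 h3.ne⟩
    · rw [map_zero]
    · rw [h00]
      exact coeff_b i 0 le_rfl (by norm_num) (by simp [qe])
  · have hli1 : (i.1 : ℕ) + 1 ≤ l := by omega
    have hli' : (((i.1 : ℕ) : ℝ)) + 1 ≤ (l : ℝ) := by exact_mod_cast hli1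
    have hu0 : u < 0 := by
      have h2 : (((i.1 : ℕ) : ℝ) - l) / r + 1 / r ≤ 0 := by
        rw [← add_div]
        apply div_nonpos_of_nonpos_of_nonneg _ hr0.le
        linarith
      rw [hu]
      linarith
    have hu1 : -1 < u := by
      have h2 : -1 ≤ (((i.1 : ℕ) : ℝ) - l) / r := by
        rw [le_div_iff₀ hr0]
        have : (0 : ℝ) ≤ ((i.1 : ℕ) : ℝ) := Nat.cast_nonneg _
        linarith
      rw [hu]
      linarith
    simp only [if_neg hli]
    refine ⟨?_, ?_, ?_⟩
    · intro N h hh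
      obtain ⟨a, ha, rfl⟩ := exists_a i N h hh
      rw [hb, qe_real a N ha]
      have hkey : (a : ℝ) * (a - 1) / 2 + a * u - u = (a - 1) * (a / 2 + u) := by ring
      rcases lt_trichotomy a 1 with h1 | h1 | h1
      · have h2 : (a : ℝ) ≤ 0 := by exact_mod_cast (show a ≤ 0 by omega)
        have h3 : 0 < (a : ℝ) * (a - 1) / 2 + a * u - u := by
          rw [hkey]
          apply mul_pos_of_neg_of_neg
          · linarith
          · linarith
        exact ⟨by linarith, fun h4 => absurd h4 (by intro h5; linarith)⟩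
      · subst h1
        refine ⟨by simp, fun _ => ⟨?_, rfl⟩⟩
        have h2 : ((N : ℕ) : ℤ) = 0 := by rw [← ha]; simp [qe]
        exact_mod_cast h2
      · have h2 : (2 : ℝ) ≤ a := by exact_mod_cast (show 2 ≤ a by omega)
        have h3 : 0 < (a : ℝ) * (a - 1) / 2 + a * u - u := by
          rw [hkey]
          apply mul_pos
          · linarith
          · linarith
        exact ⟨by linarith, fun h4 => absurd h4 (by intro h5; linarith)⟩
    · have h2 := hb 1
      rw [h2]
      simp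
    · exact coeff_b i 1 (by norm_num) le_rfl (by simp [qe])

end

end Pool.Agent.Helper60.Nag.EXH
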